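import Mathlib

set_option autoImplicit false
set_option linter.unusedSectionVars false

namespace Pool.Agent.MP54a15d

open Finset

/-- Level `n` index set of bad directions. -/
abbrev TT (n : ℕ) : Type := Fin (2 * (n + 1))

/-- Level `n` finite space: subsets of `TT n` of at most half size. -/
abbrev Om (n : ℕ) : Type := {σ : Finset (TT n) // σ.card ≤ n + 1}

/-- The product space. -/
abbrev XX : Type := ∀ n, Om n

/-- The atoms. -/
abbrev Atm : Type := Σ n, Om n

/-- The dense countable group before putting the norm. -/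
def V0 : Type := Atm →₀ ZMod 2

noncomputable instance : AddCommGroup V0 := inferInstanceAs (AddCommGroup (Atm →₀ ZMod 2))

instance : Countable V0 := inferInstanceAs (Countable (Atm →₀ ZMod 2))

/-- An element of `V0` as a function on the product space. -/
noncomputable def toFun : V0 →+ (XX → ZMod 2) :=
  Finsupp.liftAddHom (fun i : Atm =>
    { toFun := fun a => fun x => if x i.1 = i.2 then a else 0
      map_zero' := by funext x; simp
      map_add' := by intro a b; funext x; by_cases h : x i.1 = i.2 <;> simp [h] })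

/-- `F` is a cover of (the support of) `f`. -/
def Cov (F : Finset (Σ n, TT n)) (f : XX → ZMod 2) : Prop :=
  ∀ x : XX, (∀ t ∈ F, t.2 ∈ (x t.1).1) → f x = 0

/-- The weight of a finite set of directions. -/
noncomputable def wt (F : Finset (Σ n, TT n)) : ℝ := ∑ t ∈ F, (1 : ℝ) / (t.1 + 1)

lemma wt_nonneg (F : Finset (Σ n, TT n)) : 0 ≤ wt F :=
  Finset.sum_nonneg fun t _ => by positivity

/-- The submeasure-type seminorm. -/
noncomputable def NN (f : XX → ZMod 2) : ℝ := sInf {r | ∃ F, Cov F f ∧ wt F = r}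

lemma exists_cov (f : XX → ZMod 2) : ∃ F, Cov F f := by
  classical
  refine ⟨(Finset.univ : Finset (TT 0)).image (fun t => (⟨0, t⟩ : Σ n, TT n)), ?_⟩
  intro x hx
  exfalso
  have h1 : (x 0).1 = Finset.univ := by
    ext t
    simp only [Finset.mem_univ, iff_true]
    exact hx ⟨0, t⟩ (Finset.mem_image_of_mem _ (Finset.mem_univ t))
  have h2 := (x 0).2
  rw [h1] at h2
  simp at h2

lemma NN_bdd (f : XX → ZMod 2) : BddBelow {r | ∃ F, Cov F f ∧ wt F = r} :=
  ⟨0, by rintro r ⟨F, _, rfl⟩; exact wt_nonneg F⟩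

lemma NN_nonempty (f : XX → ZMod 2) : {r | ∃ F, Cov F f ∧ wt F = r}.Nonempty := by
  obtain ⟨F, hF⟩ := exists_cov f
  exact ⟨wt F, F, hF, rfl⟩

lemma NN_le {f : XX → ZMod 2} {F : Finset (Σ n, TT n)} (h : Cov F f) : NN f ≤ wt F :=
  csInf_le (NN_bdd f) ⟨F, h, rfl⟩

lemma NN_nonneg (f : XX → ZMod 2) : 0 ≤ NN f :=
  le_csInf (NN_nonempty f) (by rintro r ⟨F, _, rfl⟩; exact wt_nonneg F)

lemma NN_zero : NN 0 = 0 := by
  refine le_antisymm ?_ (NN_nonneg _)
  have : Cov ∅ (0 : XX → ZMod 2) := fun x _ => rfl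
  simpa [wt] using NN_le this

lemma NN_neg (f : XX → ZMod 2) : NN (-f) = NN f := by
  have : ∀ F, Cov F (-f) ↔ Cov F f := by
    intro F
    simp [Cov]
  simp [NN, this]

lemma NN_add (f g : XX → ZMod 2) : NN (f + g) ≤ NN f + NN g := by
  classical
  refine le_of_forall_pos_le_add fun ε hε => ?_
  obtain ⟨r, ⟨F, hF, rfl⟩, hr⟩ := exists_lt_of_csInf_lt (NN_nonempty f)
    (show NN f < NN f + ε / 2 by linarith)
  obtain ⟨r', ⟨F', hF', rfl⟩, hr'⟩ := exists_lt_of_csInf_lt (NN_nonempty g)
    (show NN g < NN g + ε / 2 by linarith)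
  have hcov : Cov (F ∪ F') (f + g) := by
    intro x hx
    have h1 := hF x fun t ht => hx t (Finset.mem_union_left _ ht)
    have h2 := hF' x fun t ht => hx t (Finset.mem_union_right _ ht)
    simp [h1, h2]
  have hwt : wt (F ∪ F') ≤ wt F + wt F' := by
    have h := Finset.sum_union_inter (s₁ := F) (s₂ := F') (f := fun t : (Σ n, TT n) => (1 : ℝ) / (t.1 + 1))
    have h3 : 0 ≤ wt (F ∩ F') := wt_nonneg _
    simp only [wt] at *
    linarith
  linarith [NN_le hcov]

/-- The seminorm on `V0`. -/
noncomputable def semi : AddGroupSeminorm V0 where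
  toFun v := NN (toFun v)
  map_zero' := by simp [NN_zero]
  add_le' v w := by rw [map_add]; exact NN_add _ _
  neg' v := by rw [map_neg]; exact NN_neg _

noncomputable instance : SeminormedAddCommGroup V0 := semi.toSeminormedAddCommGroup

lemma norm_V0 (v : V0) : ‖v‖ = NN (toFun v) := rfl

/-- The exotic group, additively. -/
abbrev GA : Type := UniformSpace.Completion V0

noncomputable instance : SecondCountableTopology GA := by
  have : TopologicalSpace.SeparableSpace V0 := inferInstance
  have : TopologicalSpace.SeparableSpace GA := inferInstance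
  exact UniformSpace.secondCountable_of_separable GA

instance : PolishSpace GA := inferInstance

/-- The atoms as homomorphisms. -/
noncomputable def sg (i : Atm) : ZMod 2 →+ V0 :=
  (Finsupp.singleAddHom i : ZMod 2 →+ (Atm →₀ ZMod 2))

lemma toFun_sg (i : Atm) (a : ZMod 2) (x : XX) :
    toFun (sg i a) x = if x i.1 = i.2 then a else 0 := by
  have : toFun (sg i a) = (fun x => if x i.1 = i.2 then a else 0) := by
    unfold toFun sg
    erw [Finsupp.liftAddHom_apply_single]
    rfl
  rw [this]

/-- The embedding of the finite group of level `n`. -/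
noncomputable def emb (n : ℕ) : (Om n → ZMod 2) →+ V0 where
  toFun g := ∑ σ : Om n, sg ⟨n, σ⟩ (g σ)
  map_zero' := by simp
  map_add' g h := by simp [Finset.sum_add_distrib]

lemma toFun_emb (n : ℕ) (g : Om n → ZMod 2) (x : XX) : toFun (emb n g) x = g (x n) := by
  have h1 : emb n g = ∑ σ : Om n, sg ⟨n, σ⟩ (g σ) := rfl
  rw [h1, map_sum, Finset.sum_apply]
  simp [toFun_sg]

/-- Small functions of level `n`. -/
lemma norm_emb_le (n : ℕ) (t : TT n) (g : Om n → ZMod 2) (hg : ∀ σ : Om n, t ∈ σ.1 → g σ = 0) :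
    ‖emb n g‖ ≤ 1 / (n + 1) := by
  rw [norm_V0]
  have : Cov {(⟨n, t⟩ : Σ n, TT n)} (toFun (emb n g)) := by
    intro x hx
    rw [toFun_emb]
    exact hg _ (hx ⟨n, t⟩ (Finset.mem_singleton_self _))
  simpa [wt] using NN_le this

/-- The distinguished element, at level `n`. -/
noncomputable def zz (n : ℕ) : GA := ((emb n 1 : V0) : GA)

lemma zz_eq (n m : ℕ) : zz n = zz m := by
  unfold zz
  rw [← sub_eq_zero, ← UniformSpace.Completion.coe_sub, ← norm_eq_zero,
    UniformSpace.Completion.norm_coe, norm_V0]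
  have : toFun (emb n 1 - emb m 1) = 0 := by
    rw [map_sub]
    funext x
    simp [toFun_emb]
  rw [this, NN_zero]

lemma one_le_NN_one : 1 ≤ NN (1 : XX → ZMod 2) := by
  classical
  refine le_csInf (NN_nonempty _) ?_
  rintro r ⟨F, hF, rfl⟩
  by_contra hlt
  push Not at hlt
  -- the sections of `F`
  have hsec : ∀ n, ((Finset.univ : Finset (TT n)).filter (fun t => (⟨n, t⟩ : Σ n, TT n) ∈ F)).card ≤ n + 1 := by
    intro n
    set Fn := (Finset.univ : Finset (TT n)).filter (fun t => (⟨n, t⟩ : Σ n, TT n) ∈ F) with hFn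
    have h1 : ∑ t ∈ Fn.image (fun t => (⟨n, t⟩ : Σ n, TT n)), (1 : ℝ) / (t.1 + 1) ≤ wt F := by
      refine Finset.sum_le_sum_of_subset_of_nonneg ?_ (fun t _ _ => by positivity)
      intro s hs
      obtain ⟨t, ht, rfl⟩ := Finset.mem_image.mp hs
      exact (Finset.mem_filter.mp ht).2
    rw [Finset.sum_image (by intro a _ b _ hab; simpa using hab)] at h1
    simp only [Finset.sum_const, nsmul_eq_mul] at h1
    have h2 : (Fn.card : ℝ) * (1 / (n + 1)) < 1 := lt_of_le_of_lt h1 hlt
    have h3 : (Fn.card : ℝ) < n + 1 := by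
      rwa [mul_one_div, div_lt_one (by positivity)] at h2
    have h4 : Fn.card < n + 1 := by exact_mod_cast h3
    exact h4.le
  have := hF (fun n => ⟨(Finset.univ : Finset (TT n)).filter (fun t => (⟨n, t⟩ : Σ n, TT n) ∈ F), hsec n⟩)
    (by
      intro t ht
      simp only [Finset.mem_filter, Finset.mem_univ, true_and]
      exact ht)
  simp at this

lemma zz_ne_zero (n : ℕ) : zz n ≠ 0 := by
  intro h
  have h1 : ‖zz n‖ = 0 := by rw [h, norm_zero]
  unfold zz at h1
  rw [UniformSpace.Completion.norm_coe, norm_V0] at h1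
  have h2 : toFun (emb n 1) = 1 := by
    funext x
    simp [toFun_emb]
  rw [h2] at h1
  linarith [one_le_NN_one]

/-- The sets `A t` at level `n`. -/
def AA (n : ℕ) (t : TT n) : Finset (Om n) := Finset.univ.filter fun σ => t ∉ σ.1

lemma AA_half (n : ℕ) (σ : Om n) :
    Fintype.card (TT n) ≤ 2 * (Finset.univ.filter fun t => σ ∈ AA n t).card := by
  have h1 : (Finset.univ.filter fun t => σ ∈ AA n t) = σ.1ᶜ := by
    ext t
    simp [AA]
  rw [h1, Finset.card_compl]
  have h2 := σ.2
  have h3 : Fintype.card (TT n) = 2 * (n + 1) := by simp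
  rw [h3]
  omega

end Pool.Agent.MP54a15d
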