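import Mathlib

set_option autoImplicit false
set_option linter.unusedSectionVars false

namespace Pool.Agent.MP54a15d

open Finset

/-- The sign character of `ZMod 2`. -/
noncomputable def sgn (a : ZMod 2) : ℝ := if a = 0 then 1 else -1

lemma sgn_zero : sgn 0 = 1 := by simp [sgn]

lemma zmod2_cases (a : ZMod 2) : a = 0 ∨ a = 1 := by
  revert a; decide

lemma sgn_one : sgn 1 = -1 := by simp [sgn]

lemma sgn_add (a b : ZMod 2) : sgn (a + b) = sgn a * sgn b := by
  rcases zmod2_cases a with rfl | rfl <;> rcases zmod2_cases b with rfl | rfl <;>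
    simp [sgn_zero, sgn_one]
  have : (1 : ZMod 2) + 1 = 0 := by decide
  rw [this, sgn_zero]

lemma sgn_sq (a : ZMod 2) : sgn a * sgn a = 1 := by
  rcases zmod2_cases a with rfl | rfl <;> simp [sgn_zero, sgn_one]

variable {Ω : Type*} [Fintype Ω] [DecidableEq Ω]

/-- Walsh characters on `Ω → ZMod 2`. -/
noncomputable def chi (S : Finset Ω) (g : Ω → ZMod 2) : ℝ := ∏ i ∈ S, sgn (g i)

lemma chi_add (S : Finset Ω) (g h : Ω → ZMod 2) : chi S (g + h) = chi S g * chi S h := by
  simp [chi, sgn_add, Finset.prod_mul_distrib]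

lemma chi_sq (S : Finset Ω) (g : Ω → ZMod 2) : chi S g * chi S g = 1 := by
  rw [chi, ← Finset.prod_mul_distrib]
  exact Finset.prod_eq_one fun i _ => sgn_sq _

lemma chi_cases (S : Finset Ω) (g : Ω → ZMod 2) : chi S g = 1 ∨ chi S g = -1 :=
  mul_self_eq_one_iff.mp (chi_sq S g)

lemma sum_chi (k : Ω → ZMod 2) :
    ∑ S : Finset Ω, chi S k = if k = 0 then (2 : ℝ) ^ Fintype.card Ω else 0 := by
  have h1 : ∑ S : Finset Ω, chi S k = ∏ i : Ω, (1 + sgn (k i)) := by
    rw [Finset.prod_one_add]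
    simp only [chi]
    rw [← Finset.powerset_univ]
  rw [h1]
  split_ifs with h
  · subst h
    simp [sgn_zero]
    norm_num
  · have : ∃ i, k i ≠ 0 := by
      by_contra hcon
      push Not at hcon
      exact h (funext hcon)
    obtain ⟨i, hi⟩ := this
    apply Finset.prod_eq_zero (Finset.mem_univ i)
    have : k i = 1 := (zmod2_cases (k i)).resolve_left hi
    rw [this, sgn_one]; norm_num

lemma zmod2_add_self (k : Ω → ZMod 2) : k + k = 0 := by
  funext i
  have : ∀ a : ZMod 2, a + a = 0 := by decide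
  simpa using this (k i)

lemma add_eq_zero_iff_eq' (k l : Ω → ZMod 2) : k + l = 0 ↔ k = l := by
  constructor
  · intro h
    have := congrArg (fun x => x + l) h
    simp only [add_assoc, zmod2_add_self, add_zero, zero_add] at this
    exact this
  · rintro rfl; exact zmod2_add_self k

variable {H : Type*} [NormedAddCommGroup H] [InnerProductSpace ℂ H]

/-- The (unnormalised) Walsh transform of a vector valued function. -/
noncomputable def wal (F : (Ω → ZMod 2) → H) (S : Finset Ω) : H :=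
  ∑ g : Ω → ZMod 2, ((chi S g : ℝ) : ℂ) • F g

lemma norm_sq_sum_eq (ι : Type*) [Fintype ι] (v : ι → H) :
    ‖∑ i, v i‖ ^ 2 = ∑ i, ∑ j, RCLike.re (inner ℂ (v i) (v j)) := by
  rw [← inner_self_eq_norm_sq (𝕜 := ℂ), sum_inner]
  simp only [inner_sum, map_sum]

lemma parseval (F : (Ω → ZMod 2) → H) :
    ∑ S : Finset Ω, ‖wal F S‖ ^ 2 = (2 : ℝ) ^ Fintype.card Ω * ∑ g, ‖F g‖ ^ 2 := by
  have h1 : ∀ S : Finset Ω, ‖wal F S‖ ^ 2 =
      ∑ g : Ω → ZMod 2, ∑ g' : Ω → ZMod 2, chi S (g + g') * RCLike.re (inner ℂ (F g) (F g')) := by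
    intro S
    rw [wal, norm_sq_sum_eq]
    refine Finset.sum_congr rfl fun g _ => Finset.sum_congr rfl fun g' _ => ?_
    rw [inner_smul_left, inner_smul_right, chi_add, Complex.conj_ofReal]
    rw [← mul_assoc, ← Complex.ofReal_mul]
    simp
  simp_rw [h1]
  rw [Finset.sum_comm]
  simp_rw [Finset.sum_comm (s := (Finset.univ : Finset (Finset Ω))), ← Finset.sum_mul, sum_chi,
    add_eq_zero_iff_eq']
  simp only [ite_mul, zero_mul, Finset.sum_ite_eq, Finset.mem_univ, if_true]
  rw [Finset.mul_sum]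
  refine Finset.sum_congr rfl fun g _ => ?_
  rw [inner_self_eq_norm_sq (𝕜 := ℂ)]

lemma wal_shift (F : (Ω → ZMod 2) → H) (k : Ω → ZMod 2) (S : Finset Ω) :
    wal (fun g => F (g + k)) S = ((chi S k : ℝ) : ℂ) • wal F S := by
  rw [wal, wal, Finset.smul_sum]
  rw [← Equiv.sum_comp (Equiv.addRight k)]
  refine Finset.sum_congr rfl fun g _ => ?_
  simp only [Equiv.coe_addRight]
  rw [add_assoc, zmod2_add_self, add_zero, chi_add, smul_smul]
  rw [← Complex.ofReal_mul, mul_comm]

lemma wal_sub (F F' : (Ω → ZMod 2) → H) (S : Finset Ω) :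
    wal (fun g => F g - F' g) S = wal F S - wal F' S := by
  simp [wal, smul_sub, Finset.sum_sub_distrib]

lemma shift_identity (F : (Ω → ZMod 2) → H) (k : Ω → ZMod 2) :
    (2 : ℝ) ^ Fintype.card Ω * ∑ g, ‖F (g + k) - F g‖ ^ 2 =
      ∑ S : Finset Ω, (chi S k - 1) ^ 2 * ‖wal F S‖ ^ 2 := by
  rw [← parseval]
  refine Finset.sum_congr rfl fun S _ => ?_
  rw [wal_sub (fun g => F (g + k)) F, wal_shift]
  have : ((chi S k : ℝ) : ℂ) • wal F S - wal F S = (((chi S k - 1 : ℝ)) : ℂ) • wal F S := by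
    push_cast
    rw [sub_smul, one_smul]
  rw [this, norm_smul, mul_pow]
  congr 1
  rw [Complex.norm_real, Real.norm_eq_abs, sq_abs]

/-- Functions supported in `A`. -/
def supp (A : Finset Ω) : Finset (Ω → ZMod 2) :=
  Finset.univ.filter fun h => ∀ i, i ∉ A → h i = 0

lemma supp_nonempty (A : Finset Ω) : (supp A).Nonempty := ⟨0, by simp [supp]⟩

lemma sum_chi_supp_of_inter (A S : Finset Ω) (i : Ω) (hiA : i ∈ A) (hiS : i ∈ S) :
    ∑ h ∈ supp A, chi S h = 0 := by
  have hchi : chi S (Pi.single i (1 : ZMod 2)) = -1 := by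
    rw [chi, Finset.prod_eq_single i]
    · simp [sgn_one]
    · intro j _ hj
      simp [Pi.single_eq_of_ne hj, sgn_zero]
    · intro h; exact absurd hiS h
  refine Finset.sum_involution (fun h _ => h + Pi.single i 1) ?_ ?_ ?_ ?_
  · intro h _
    rw [chi_add, hchi]; ring
  · intro h _ _ heq
    have := congrFun heq i
    simp at this
  · intro h hh
    simp only [supp, Finset.mem_filter, Finset.mem_univ, true_and] at hh ⊢
    intro j hj
    have hji : j ≠ i := fun h => hj (h ▸ hiA)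
    simp [hh j hj, Pi.single_eq_of_ne hji]
  · intro h _
    simp only [add_assoc, zmod2_add_self, add_zero]

lemma sum_sq_supp (A S : Finset Ω) (i : Ω) (hiA : i ∈ A) (hiS : i ∈ S) :
    ∑ h ∈ supp A, (chi S h - 1) ^ 2 = 2 * ((supp A).card : ℝ) := by
  have h1 : ∀ h : Ω → ZMod 2, (chi S h - 1) ^ 2 = 2 - 2 * chi S h := by
    intro h
    have := chi_sq S h
    ring_nf
    rw [pow_two, this]; ring
  simp_rw [h1]
  rw [Finset.sum_sub_distrib, ← Finset.mul_sum, sum_chi_supp_of_inter A S i hiA hiS]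
  simp; ring

/-- The key inequality: if every point of `Ω` lies in at least half of the sets `A t`, and `F` moves
by at most `ε` under translation by functions supported in one of the `A t`, then `F` moves little
in the mean under translation by the constant function `1`. -/
theorem key_ineq {T : Type*} [Fintype T] [Nonempty T] (A : T → Finset Ω)
    (hA : ∀ i : Ω, Fintype.card T ≤ 2 * (Finset.univ.filter fun t => i ∈ A t).card)
    (F : (Ω → ZMod 2) → H) (ε : ℝ) (hε : 0 ≤ ε)
    (hF : ∀ t, ∀ h ∈ supp (A t), ∀ g, ‖F (g + h) - F g‖ ≤ ε) :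
    ∑ g, ‖F (g + 1) - F g‖ ^ 2 ≤ 4 * ε ^ 2 * Fintype.card (Ω → ZMod 2) := by
  have hT : (0 : ℝ) < Fintype.card T := by exact_mod_cast Fintype.card_pos
  have h2 : (0 : ℝ) < (2 : ℝ) ^ Fintype.card Ω := by positivity
  have hcard : ((Fintype.card (Ω → ZMod 2) : ℕ) : ℝ) = (2 : ℝ) ^ Fintype.card Ω := by
    simp [ZMod.card]
  -- averaged kernel
  set K : Finset Ω → ℝ := fun S => ∑ t, ((supp (A t)).card : ℝ)⁻¹ * ∑ h ∈ supp (A t), (chi S h - 1) ^ 2
    with hK
  have hKnn : ∀ S, 0 ≤ K S := by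
    intro S
    refine Finset.sum_nonneg fun t _ => mul_nonneg (by positivity) (Finset.sum_nonneg fun h _ => by positivity)
  have hKbig : ∀ S : Finset Ω, (chi S 1 - 1) ^ 2 * Fintype.card T ≤ 4 * K S := by
    intro S
    rcases S.eq_empty_or_nonempty with rfl | ⟨i, hi⟩
    · have : chi (∅ : Finset Ω) (1 : Ω → ZMod 2) = 1 := by simp [chi]
      rw [this]; simp only [sub_self]
      have := hKnn ∅
      nlinarith
    · have hle : (chi S 1 - 1) ^ 2 ≤ 4 := by
        rcases chi_cases S 1 with h | h <;> rw [h] <;> norm_num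
      have hKS : (2 : ℝ) * (Finset.univ.filter fun t => i ∈ A t).card ≤ K S := by
        calc (2 : ℝ) * (Finset.univ.filter fun t => i ∈ A t).card
            = ∑ t ∈ Finset.univ.filter (fun t => i ∈ A t), (2 : ℝ) := by
              simp [mul_comm]
          _ = ∑ t ∈ Finset.univ.filter (fun t => i ∈ A t),
                ((supp (A t)).card : ℝ)⁻¹ * ∑ h ∈ supp (A t), (chi S h - 1) ^ 2 := by
              refine Finset.sum_congr rfl fun t ht => ?_
              rw [sum_sq_supp (A t) S i (Finset.mem_filter.mp ht).2 hi]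
              have : ((supp (A t)).card : ℝ) ≠ 0 := by
                have := Finset.card_pos.mpr (supp_nonempty (A t))
                positivity
              field_simp
          _ ≤ K S := by
              refine Finset.sum_le_sum_of_subset_of_nonneg (Finset.filter_subset _ _) ?_
              intro t _ _
              exact mul_nonneg (by positivity) (Finset.sum_nonneg fun h _ => by positivity)
      have h3 : (Fintype.card T : ℝ) ≤ 2 * (Finset.univ.filter fun t => i ∈ A t).card := by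
        exact_mod_cast hA i
      nlinarith
  have hsum : (Fintype.card T : ℝ) * ((2 : ℝ) ^ Fintype.card Ω * ∑ g, ‖F (g + 1) - F g‖ ^ 2) ≤
      4 * ∑ S : Finset Ω, K S * ‖wal F S‖ ^ 2 := by
    rw [shift_identity, Finset.mul_sum, Finset.mul_sum]
    refine Finset.sum_le_sum fun S _ => ?_
    have := hKbig S
    have h4 : (0 : ℝ) ≤ ‖wal F S‖ ^ 2 := by positivity
    nlinarith
  have hK2 : ∑ S : Finset Ω, K S * ‖wal F S‖ ^ 2 =
      ∑ t, ((supp (A t)).card : ℝ)⁻¹ * ∑ h ∈ supp (A t),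
        ((2 : ℝ) ^ Fintype.card Ω * ∑ g, ‖F (g + h) - F g‖ ^ 2) := by
    simp_rw [shift_identity, hK, Finset.sum_mul]
    rw [Finset.sum_comm]
    refine Finset.sum_congr rfl fun t _ => ?_
    simp_rw [mul_assoc]
    rw [← Finset.mul_sum]
    congr 1
    simp_rw [Finset.sum_mul]
    rw [Finset.sum_comm]
  have hbd : ∀ h t, h ∈ supp (A t) →
      ∑ g, ‖F (g + h) - F g‖ ^ 2 ≤ (2 : ℝ) ^ Fintype.card Ω * ε ^ 2 := by
    intro h t hh
    calc ∑ g, ‖F (g + h) - F g‖ ^ 2 ≤ ∑ g : Ω → ZMod 2, ε ^ 2 := by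
          refine Finset.sum_le_sum fun g _ => ?_
          exact pow_le_pow_left₀ (norm_nonneg _) (hF t h hh g) 2
      _ = (2 : ℝ) ^ Fintype.card Ω * ε ^ 2 := by
          rw [Finset.sum_const, nsmul_eq_mul, Finset.card_univ, hcard]
  have hK3 : ∑ S : Finset Ω, K S * ‖wal F S‖ ^ 2 ≤
      Fintype.card T * ((2 : ℝ) ^ Fintype.card Ω * ((2 : ℝ) ^ Fintype.card Ω * ε ^ 2)) := by
    rw [hK2]
    calc _ ≤ ∑ t : T, ((2 : ℝ) ^ Fintype.card Ω * ((2 : ℝ) ^ Fintype.card Ω * ε ^ 2)) := by
          refine Finset.sum_le_sum fun t _ => ?_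
          have hc : (0 : ℝ) < ((supp (A t)).card : ℝ) := by
            exact_mod_cast Finset.card_pos.mpr (supp_nonempty (A t))
          rw [inv_mul_le_iff₀ hc]
          calc _ ≤ ∑ h ∈ supp (A t), ((2 : ℝ) ^ Fintype.card Ω * ((2 : ℝ) ^ Fintype.card Ω * ε ^ 2)) := by
                refine Finset.sum_le_sum fun h hh => ?_
                exact mul_le_mul_of_nonneg_left (hbd h t hh) h2.le
            _ = _ := by rw [Finset.sum_const, nsmul_eq_mul]
      _ = _ := by rw [Finset.sum_const, nsmul_eq_mul, Finset.card_univ]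
  have hfin : (Fintype.card T : ℝ) * ((2 : ℝ) ^ Fintype.card Ω * ∑ g, ‖F (g + 1) - F g‖ ^ 2) ≤
      (Fintype.card T : ℝ) * ((2 : ℝ) ^ Fintype.card Ω * (4 * ε ^ 2 * (2 : ℝ) ^ Fintype.card Ω)) := by
    nlinarith [hsum, hK3]
  rw [hcard]
  exact le_of_mul_le_mul_left (le_of_mul_le_mul_left hfin hT) h2

end Pool.Agent.MP54a15d
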