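import Mathlib

set_option autoImplicit false
set_option linter.unusedSectionVars false

namespace Pool.Agent.MP54a15d

section Words

variable {B : Type*} [Ring B] [StarRing B] [Algebra ℂ B] [StarModule ℂ B]

/-- Product of the isometries along a word. -/
def W (s : Bool → B) (u : List Bool) : B := (u.map s).prod

lemma W_nil (s : Bool → B) : W s [] = 1 := rfl

lemma W_cons (s : Bool → B) (i : Bool) (u : List Bool) : W s (i :: u) = s i * W s u := by
  simp [W]

lemma W_append (s : Bool → B) (u v : List Bool) : W s (u ++ v) = W s u * W s v := by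
  simp [W]

variable {s : Bool → B} (hs : ∀ i j, star (s i) * s j = if i = j then 1 else 0)

include hs

lemma W_star_mul_self (u : List Bool) : star (W s u) * W s u = 1 := by
  induction u with
  | nil => simp [W_nil]
  | cons i u ih =>
    rw [W_cons, star_mul, mul_assoc, ← mul_assoc (star (s i)), hs i i]
    simpa using ih

lemma W_reduce (u v : List Bool) :
    (∃ w, star (W s u) * W s v = W s w) ∨ (∃ w, star (W s u) * W s v = star (W s w)) ∨
      star (W s u) * W s v = 0 := by
  induction u generalizing v with
  | nil => left; exact ⟨v, by simp [W_nil]⟩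
  | cons i u ih =>
    cases v with
    | nil => right; left; exact ⟨i :: u, by simp [W_nil]⟩
    | cons j v =>
      have h : star (W s (i :: u)) * W s (j :: v) = star (W s u) * ((star (s i) * s j) * W s v) := by
        rw [W_cons, W_cons, star_mul]
        simp only [mul_assoc]
      rw [h, hs i j]
      by_cases hij : i = j
      · simp only [hij, if_true, one_mul]
        exact ih v
      · right; right
        simp [hij]

lemma W_zero (u v : List Bool) (k : ℕ) (hu : k < u.length) (hv : k < v.length)
    (hne : u[k] ≠ v[k]) : star (W s u) * W s v = 0 := by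
  induction u generalizing v k with
  | nil => simp at hu
  | cons i u ih =>
    cases v with
    | nil => simp at hv
    | cons j v =>
      have h : star (W s (i :: u)) * W s (j :: v) = star (W s u) * ((star (s i) * s j) * W s v) := by
        rw [W_cons, W_cons, star_mul]
        simp only [mul_assoc]
      rw [h, hs i j]
      by_cases hij : i = j
      · cases k with
        | zero => simp only [List.getElem_cons_zero] at hne; exact absurd hij hne
        | succ k =>
          simp only [hij, if_true, one_mul]
          refine ih v k (by simpa using hu) (by simpa using hv) (by simpa using hne)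
      · simp [hij]

/-- The span of the elements `W u (W v)*`. -/
def Msp (s : Bool → B) : Submodule ℂ B :=
  Submodule.span ℂ {x | ∃ u v, x = W s u * star (W s v)}

lemma Msp_mul {x y : B} (hx : x ∈ Msp s) (hy : y ∈ Msp s) : x * y ∈ Msp s := by
  refine Submodule.span_induction₂ (p := fun x y _ _ => x * y ∈ Msp s) ?_ ?_ ?_ ?_ ?_ ?_ ?_ hx hy
  · rintro x y ⟨u, v, rfl⟩ ⟨u', v', rfl⟩
    have h : W s u * star (W s v) * (W s u' * star (W s v')) =
      W s u * (star (W s v) * W s u') * star (W s v') := by simp only [mul_assoc]
    rw [h]
    rcases W_reduce hs v u' with ⟨w, hw⟩ | ⟨w, hw⟩ | hw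
    · rw [hw, ← W_append]
      exact Submodule.subset_span ⟨_, _, rfl⟩
    · rw [hw, mul_assoc, ← star_mul, ← W_append]
      exact Submodule.subset_span ⟨_, _, rfl⟩
    · rw [hw]; simp
  · intro y _; simp
  · intro x _; simp
  · intro x y z _ _ _ h1 h2
    rw [add_mul]; exact Submodule.add_mem _ h1 h2
  · intro x y z _ _ _ h1 h2
    rw [mul_add]; exact Submodule.add_mem _ h1 h2
  · intro r x y _ _ h
    rw [smul_mul_assoc]; exact Submodule.smul_mem _ _ h
  · intro r x y _ _ h
    rw [mul_smul_comm]; exact Submodule.smul_mem _ _ h

omit hs in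
lemma Msp_star {x : B} (hx : x ∈ Msp s) : star x ∈ Msp s := by
  refine Submodule.span_induction (p := fun x _ => star x ∈ Msp s) ?_ ?_ ?_ ?_ hx
  · rintro x ⟨u, v, rfl⟩
    refine Submodule.subset_span ⟨v, u, ?_⟩
    rw [star_mul, star_star]
  · simp
  · intro x y _ _ h1 h2
    rw [star_add]; exact Submodule.add_mem _ h1 h2
  · intro r x _ h
    rw [star_smul]; exact Submodule.smul_mem _ _ h

omit hs in
lemma Msp_one : (1 : B) ∈ Msp s := Submodule.subset_span ⟨[], [], by simp [W_nil]⟩

lemma adjoin_le_Msp {x : B} (hx : x ∈ StarAlgebra.adjoin ℂ ({s false, s true} : Set B)) :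
    x ∈ Msp s := by
  induction hx using StarAlgebra.adjoin_induction with
  | mem x hx =>
    have : ∃ i, x = s i := by
      rcases hx with rfl | hx
      · exact ⟨false, rfl⟩
      · exact ⟨true, hx⟩
    obtain ⟨i, rfl⟩ := this
    exact Submodule.subset_span ⟨[i], [], by simp [W]⟩
  | algebraMap r =>
    rw [Algebra.algebraMap_eq_smul_one]
    exact Submodule.smul_mem _ _ Msp_one
  | add x y _ _ hx hy => exact Submodule.add_mem _ hx hy
  | mul x y _ _ hx hy => exact Msp_mul hs hx hy
  | star x _ hx => exact Msp_star hx

end Words

/-- Prefix of a sequence. -/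
def pre (p : ℕ → Bool) (k : ℕ) : List Bool := (List.range k).map p

lemma pre_zero (p : ℕ → Bool) : pre p 0 = [] := rfl

lemma pre_length (p : ℕ → Bool) (k : ℕ) : (pre p k).length = k := by simp [pre]

lemma pre_getElem (p : ℕ → Bool) (k i : ℕ) (h : i < (pre p k).length) : (pre p k)[i] = p i := by
  simp [pre]

lemma pre_succ (p : ℕ → Bool) (k : ℕ) : pre p (k + 1) = p 0 :: pre (fun n => p (n + 1)) k := by
  simp only [pre, List.range_succ_eq_map, List.map_cons, List.map_map]
  rfl

lemma pre_add (p : ℕ → Bool) (m k : ℕ) : pre p (m + k) = pre p m ++ pre (fun n => p (m + n)) k := by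
  simp only [pre, List.range_add, List.map_append, List.map_map]
  rfl

/-- A sequence is aperiodic if its shifts are pairwise distinct. -/
def Aper (p : ℕ → Bool) : Prop := ∀ m n, m ≠ n → ∃ i, p (m + i) ≠ p (n + i)

section Lim

variable {B : Type*} [Ring B] [StarRing B] [Algebra ℂ B] [StarModule ℂ B]
variable {s : Bool → B} (hs : ∀ i j, star (s i) * s j = if i = j then 1 else 0)

include hs

/-- Compression of a word operator by long prefixes is eventually scalar. -/
lemma compress_word (p : ℕ → Bool) (hp : Aper p) (u v : List Bool) :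
    ∃ c : ℂ, ∃ k₀, ∀ k ≥ k₀,
      star (W s (pre p k)) * (W s u * star (W s v)) * W s (pre p k) = c • 1 := by
  by_cases hu : u = pre p u.length
  · by_cases hv : v = pre p v.length
    · set m := u.length with hm
      set n := v.length with hn
      have key : ∀ k, m ≤ k → n ≤ k →
          star (W s (pre p k)) * (W s u * star (W s v)) * W s (pre p k) =
          star (W s (pre (fun j => p (m + j)) (k - m))) * W s (pre (fun j => p (n + j)) (k - n)) := by
        intro k hmk hnk
        have e1 : W s (pre p k) = W s u * W s (pre (fun j => p (m + j)) (k - m)) := by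
          conv_lhs => rw [show k = m + (k - m) by omega, pre_add, W_append, ← hu]
        have e2 : W s (pre p k) = W s v * W s (pre (fun j => p (n + j)) (k - n)) := by
          conv_lhs => rw [show k = n + (k - n) by omega, pre_add, W_append, ← hv]
        calc _ = star (W s u * W s (pre (fun j => p (m + j)) (k - m))) * (W s u * star (W s v)) *
              (W s v * W s (pre (fun j => p (n + j)) (k - n))) := by rw [← e1, ← e2]
          _ = star (W s (pre (fun j => p (m + j)) (k - m))) * (star (W s u) * W s u) *
              (star (W s v) * W s v) * W s (pre (fun j => p (n + j)) (k - n)) := by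
              rw [star_mul]; simp only [mul_assoc]
          _ = _ := by rw [W_star_mul_self hs, W_star_mul_self hs]; simp
      by_cases hmn : m = n
      · refine ⟨1, max m n, fun k hk => ?_⟩
        rw [key k (le_trans (le_max_left _ _) hk) (le_trans (le_max_right _ _) hk), hmn,
          W_star_mul_self hs, one_smul]
      · obtain ⟨i, hi⟩ := hp m n hmn
        refine ⟨0, m + n + i + 1, fun k hk => ?_⟩
        rw [key k (by omega) (by omega), zero_smul]
        refine W_zero hs _ _ i (by rw [pre_length]; omega) (by rw [pre_length]; omega) ?_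
        rw [pre_getElem, pre_getElem]
        exact hi
    · -- v is not a prefix
      refine ⟨0, v.length, fun k hk => ?_⟩
      have : ∃ i, ∃ h : i < v.length, v[i] ≠ p i := by
        by_contra hcon
        push Not at hcon
        apply hv
        apply List.ext_getElem (by rw [pre_length])
        intro i h1 h2
        rw [pre_getElem]
        exact hcon i h1
      obtain ⟨i, h1, h2⟩ := this
      have h3 : star (W s v) * W s (pre p k) = 0 := by
        refine W_zero hs _ _ i h1 (by rw [pre_length]; omega) ?_
        rw [pre_getElem]; exact h2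
      rw [zero_smul, mul_assoc, mul_assoc, h3, mul_zero, mul_zero]
  · refine ⟨0, u.length, fun k hk => ?_⟩
    have : ∃ i, ∃ h : i < u.length, u[i] ≠ p i := by
      by_contra hcon
      push Not at hcon
      apply hu
      apply List.ext_getElem (by rw [pre_length])
      intro i h1 h2
      rw [pre_getElem]
      exact hcon i h1
    obtain ⟨i, h1, h2⟩ := this
    have h3 : star (W s (pre p k)) * W s u = 0 := by
      refine W_zero hs _ _ i (by rw [pre_length]; omega) h1 ?_
      rw [pre_getElem]; exact h2.symm
    rw [zero_smul, ← mul_assoc, h3, zero_mul, zero_mul]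

lemma compress_Msp (p : ℕ → Bool) (hp : Aper p) {x : B} (hx : x ∈ Msp s) :
    ∃ c : ℂ, ∃ k₀, ∀ k ≥ k₀, star (W s (pre p k)) * x * W s (pre p k) = c • 1 := by
  refine Submodule.span_induction (p := fun x _ => ∃ c : ℂ, ∃ k₀, ∀ k ≥ k₀,
    star (W s (pre p k)) * x * W s (pre p k) = c • 1) ?_ ?_ ?_ ?_ hx
  · rintro x ⟨u, v, rfl⟩
    exact compress_word hs p hp u v
  · exact ⟨0, 0, fun k _ => by simp⟩
  · rintro x y _ _ ⟨c, k₀, h⟩ ⟨c', k₀', h'⟩
    refine ⟨c + c', max k₀ k₀', fun k hk => ?_⟩
    rw [mul_add, add_mul, h k (le_trans (le_max_left _ _) hk), h' k (le_trans (le_max_right _ _) hk),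
      add_smul]
  · rintro r x _ ⟨c, k₀, h⟩
    refine ⟨r * c, k₀, fun k hk => ?_⟩
    rw [mul_smul_comm, smul_mul_assoc, h k hk, smul_smul]

end Lim

end Pool.Agent.MP54a15d
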