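import Mathlib
import Pool.Agent.MP54a15d.Words

set_option autoImplicit false
set_option linter.unusedSectionVars false

namespace Pool.Agent.MP54a15d

/-- Aperiodic binary sequences. -/
abbrev PX : Type := {x : ℕ → Bool // Aper x}

noncomputable instance instDecEqPX : DecidableEq PX := Classical.decEq _

/-- Prepending a letter. -/
def consF (i : Bool) (x : ℕ → Bool) : ℕ → Bool
  | 0 => i
  | (n + 1) => x n

lemma aper_cons (i : Bool) {x : ℕ → Bool} (hx : Aper x) : Aper (consF i x) := by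
  intro m n hmn
  obtain ⟨j, hj⟩ := hx m n hmn
  refine ⟨j + 1, ?_⟩
  simpa [consF, ← add_assoc] using hj

lemma aper_tail {x : ℕ → Bool} (hx : Aper x) : Aper (fun n => x (n + 1)) := by
  intro m n hmn
  obtain ⟨j, hj⟩ := hx (m + 1) (n + 1) (by omega)
  refine ⟨j, ?_⟩
  simpa [add_right_comm] using hj

/-- Prepending a letter. -/
def cns (i : Bool) (x : PX) : PX := ⟨consF i x.1, aper_cons i x.2⟩

/-- Removing a letter. -/
def tl (x : PX) : PX := ⟨fun n => x.1 (n + 1), aper_tail x.2⟩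

lemma cns_tl (x : PX) : cns (x.1 0) (tl x) = x := by
  apply Subtype.ext
  funext n
  cases n <;> rfl

lemma cns_inj {i j : Bool} {x y : PX} : cns i x = cns j y ↔ i = j ∧ x = y := by
  constructor
  · intro h
    have h1 := congrArg Subtype.val h
    refine ⟨congrFun h1 0, Subtype.ext ?_⟩
    funext n
    exact congrFun h1 (n + 1)
  · rintro ⟨rfl, rfl⟩; rfl

/-- The Hilbert space. -/
abbrev HH : Type := lp (fun _ : PX => ℂ) 2

/-- The canonical basis. -/
noncomputable def dd (x : PX) : HH := lp.single 2 x (1 : ℂ)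

lemma inner_dd_left (x : PX) (f : HH) : inner ℂ (dd x) f = f x := by
  unfold dd
  rw [lp.inner_single_left]
  simp

lemma dd_apply (x y : PX) : (dd x : HH) y = if y = x then (1 : ℂ) else 0 := by
  unfold dd
  rw [lp.single_apply, Pi.single_apply]

lemma orthonormal_dd : Orthonormal ℂ dd := by
  rw [orthonormal_iff_ite]
  intro x y
  rw [inner_dd_left, dd_apply]

lemma ext_dd {f g : HH →L[ℂ] HH} (h : ∀ x, f (dd x) = g (dd x)) : f = g := by
  refine lp.ext_continuousLinearMap (by norm_num) fun x => ?_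
  ext
  have := h x
  unfold dd at this
  simpa using congrArg (fun v : HH => v _) this

lemma ext_vec {f g : HH} (h : ∀ x, inner ℂ (dd x) f = inner ℂ (dd x) g) : f = g := by
  apply lp.ext
  funext x
  rw [← inner_dd_left, ← inner_dd_left]
  exact h x

lemma orthonormal_cns (i : Bool) : Orthonormal ℂ (fun x => dd (cns i x)) :=
  orthonormal_dd.comp _ (fun _ _ h => (cns_inj.mp h).2)

/-- The isometries. -/
noncomputable def Sli (i : Bool) : HH →ₗᵢ[ℂ] HH := (orthonormal_cns i).orthogonalFamily.linearIsometry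

/-- The isometries as continuous linear maps. -/
noncomputable def SS (i : Bool) : HH →L[ℂ] HH := (Sli i).toContinuousLinearMap

lemma SS_dd (i : Bool) (x : PX) : SS i (dd x) = dd (cns i x) := by
  have h := (orthonormal_cns i).orthogonalFamily.linearIsometry_apply_single (i := x) (1 : ℂ)
  have h2 : SS i (dd x) = LinearIsometry.toSpanSingleton ℂ HH ((orthonormal_cns i).1 x) 1 := h
  rw [h2]
  simp [LinearIsometry.toSpanSingleton]

lemma star_SS_dd (i : Bool) (x y : PX) : inner ℂ (dd x) (star (SS i) (dd y)) = if cns i x = y then (1 : ℂ) else 0 := by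
  rw [ContinuousLinearMap.star_eq_adjoint, ContinuousLinearMap.adjoint_inner_right, SS_dd,
    inner_dd_left, dd_apply]

lemma rel (i j : Bool) : star (SS i) * SS j = if i = j then 1 else 0 := by
  apply ext_dd
  intro x
  apply ext_vec
  intro y
  rw [mul_apply_eq_comp, SS_dd, star_SS_dd]
  by_cases hij : i = j
  · subst hij
    simp only [if_true, cns_inj, true_and, one_apply_eq_self]
    rw [inner_dd_left, dd_apply]
  · simp [hij, cns_inj]

lemma star_SS_cns (i j : Bool) (x : PX) : star (SS i) (dd (cns j x)) = if i = j then dd x else 0 := by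
  have h := rel i j
  have h1 : (star (SS i) * SS j) (dd x) = (if i = j then (1 : HH →L[ℂ] HH) else 0) (dd x) := by rw [h]
  rw [mul_apply_eq_comp, SS_dd] at h1
  rw [h1]
  split_ifs <;> simp

lemma rel_sum : SS false * star (SS false) + SS true * star (SS true) = 1 := by
  apply ext_dd
  intro x
  rw [← cns_tl x]
  simp only [add_apply, mul_apply_eq_comp, star_SS_cns,
    one_apply_eq_self]
  cases x.1 0 <;> simp [SS_dd]

/-- shift iterate -/
def tlk (x : PX) : ℕ → PX
  | 0 => x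
  | (k + 1) => tlk (tl x) k

lemma W_pre_dd (k : ℕ) (x : PX) : W SS (pre x.1 k) (dd (tlk x k)) = dd x := by
  induction k generalizing x with
  | zero => simp [pre_zero, W_nil, tlk]
  | succ k ih =>
    rw [pre_succ, W_cons, mul_apply_eq_comp]
    have := ih (tl x)
    simp only [tlk]
    rw [show (fun n => x.1 (n + 1)) = (tl x).1 from rfl, this, SS_dd, cns_tl]

lemma norm_dd (x : PX) : ‖dd x‖ = 1 := orthonormal_dd.1 x

lemma norm_W_le (u : List Bool) : ‖W SS u‖ ≤ 1 := by
  have h := W_star_mul_self rel u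
  have h1 : ‖W SS u‖ * ‖W SS u‖ = ‖star (W SS u) * W SS u‖ := (CStarRing.norm_star_mul_self).symm
  rw [h] at h1
  have h2 : ‖(1 : HH →L[ℂ] HH)‖ ≤ 1 := ContinuousLinearMap.norm_id_le
  nlinarith [norm_nonneg (W SS u)]

lemma norm_compress_le (u : List Bool) (T : HH →L[ℂ] HH) :
    ‖star (W SS u) * T * W SS u‖ ≤ ‖T‖ := by
  calc ‖star (W SS u) * T * W SS u‖ ≤ ‖star (W SS u)‖ * ‖T‖ * ‖W SS u‖ :=
        (norm_mul_le _ _).trans (mul_le_mul_of_nonneg_right (norm_mul_le _ _) (norm_nonneg _))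
    _ ≤ 1 * ‖T‖ * 1 := by
        have hst : ‖star (W SS u)‖ ≤ 1 := (norm_star (W SS u)).le.trans (norm_W_le u)
        gcongr
        exact norm_W_le u
    _ = ‖T‖ := by ring

/-- The vector state at `x`. -/
lemma compress_state (x : PX) (k : ℕ) (T : HH →L[ℂ] HH) :
    inner ℂ (dd (tlk x k)) ((star (W SS (pre x.1 k)) * T * W SS (pre x.1 k)) (dd (tlk x k))) =
      inner ℂ (dd x) (T (dd x)) := by
  rw [mul_apply_eq_comp, mul_apply_eq_comp, W_pre_dd,
    ContinuousLinearMap.star_eq_adjoint, ContinuousLinearMap.adjoint_inner_right, W_pre_dd]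

lemma compress_Msp_eq (x : PX) {T : HH →L[ℂ] HH} (hT : T ∈ Msp SS) :
    ∃ k₀, ∀ k ≥ k₀, star (W SS (pre x.1 k)) * T * W SS (pre x.1 k) =
      (inner ℂ (dd x) (T (dd x)) : ℂ) • (1 : HH →L[ℂ] HH) := by
  obtain ⟨c, k₀, h⟩ := compress_Msp rel x.1 x.2 hT
  refine ⟨k₀, fun k hk => ?_⟩
  have h1 := compress_state x k T
  rw [h k hk] at h1 ⊢
  rw [← h1]
  congr 1
  simp [norm_dd]

lemma norm_inner_dd_le (x : PX) (T : HH →L[ℂ] HH) : ‖(inner ℂ (dd x) (T (dd x)) : ℂ)‖ ≤ ‖T‖ := by
  calc ‖(inner ℂ (dd x) (T (dd x)) : ℂ)‖ ≤ ‖dd x‖ * ‖T (dd x)‖ := norm_inner_le_norm _ _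
    _ ≤ 1 * (‖T‖ * 1) := by
        rw [norm_dd]
        gcongr
        simpa [norm_dd] using T.le_opNorm (dd x)
    _ = ‖T‖ := by ring

/-- Norm convergence of the compressions, for all operators in the closed algebra. -/
theorem compress_limit (x : PX) {T : HH →L[ℂ] HH}
    (hT : T ∈ (StarAlgebra.adjoin ℂ ({SS false, SS true} : Set (HH →L[ℂ] HH))).topologicalClosure)
    (ε : ℝ) (hε : 0 < ε) :
    ∃ k, ‖star (W SS (pre x.1 k)) * T * W SS (pre x.1 k) -
      (inner ℂ (dd x) (T (dd x)) : ℂ) • (1 : HH →L[ℂ] HH)‖ ≤ ε := by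
  rw [← SetLike.mem_coe, StarSubalgebra.topologicalClosure_coe] at hT
  obtain ⟨T', hT', hd⟩ := Metric.mem_closure_iff.mp hT (ε / 2) (by linarith)
  obtain ⟨k₀, hk⟩ := compress_Msp_eq x (adjoin_le_Msp rel hT')
  refine ⟨k₀, ?_⟩
  have h := hk k₀ le_rfl
  have e : star (W SS (pre x.1 k₀)) * T * W SS (pre x.1 k₀) -
      (inner ℂ (dd x) (T (dd x)) : ℂ) • (1 : HH →L[ℂ] HH) =
      star (W SS (pre x.1 k₀)) * (T - T') * W SS (pre x.1 k₀) -
      (inner ℂ (dd x) ((T - T') (dd x)) : ℂ) • (1 : HH →L[ℂ] HH) := by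
    rw [mul_sub, sub_mul, h, sub_apply, inner_sub_right, sub_smul]
    abel
  rw [e]
  rw [dist_eq_norm] at hd
  calc _ ≤ ‖star (W SS (pre x.1 k₀)) * (T - T') * W SS (pre x.1 k₀)‖ +
        ‖(inner ℂ (dd x) ((T - T') (dd x)) : ℂ) • (1 : HH →L[ℂ] HH)‖ := norm_sub_le _ _
    _ ≤ ‖T - T'‖ + ‖T - T'‖ * 1 := by
        gcongr
        · exact norm_compress_le _ _
        · rw [norm_smul]
          gcongr
          · exact norm_inner_dd_le _ _
          · exact ContinuousLinearMap.norm_id_le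
    _ ≤ ε := by linarith

end Pool.Agent.MP54a15d
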