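import Mathlib
import Pool.Agent.MP54a15d.Fourier
import Pool.Agent.MP54a15d.ExoticGroup
import Pool.Agent.MP54a15d.Model

set_option autoImplicit false
set_option linter.unusedSectionVars false

namespace Pool.Agent.MP54a15d

open Topology

/-- The Cuntz algebra, as a star subalgebra. -/
noncomputable def O2 : StarSubalgebra ℂ (HH →L[ℂ] HH) :=
  (StarAlgebra.adjoin ℂ ({SS false, SS true} : Set (HH →L[ℂ] HH))).topologicalClosure

lemma O2_closed : IsClosed (O2 : Set (HH →L[ℂ] HH)) :=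
  StarSubalgebra.isClosed_topologicalClosure _

noncomputable instance : CStarAlgebra O2 := StarSubalgebra.cstarAlgebra O2 (h_closed := O2_closed)

/-- existence of an aperiodic sequence -/
lemma exists_aper : ∃ p : ℕ → Bool, Aper p := by
  classical
  refine ⟨fun n => decide (∃ k, n = 2 ^ k), ?_⟩
  -- wlog m < n
  have key : ∀ m n : ℕ, m < n → ∃ i, (fun n => decide (∃ k, n = 2 ^ k)) (m + i) ≠ (fun n => decide (∃ k, n = 2 ^ k)) (n + i) := by
    intro m n hmn
    have hn : n < 2 ^ n := Nat.lt_two_pow_self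
    refine ⟨2 ^ n - m, ?_⟩
    have h1 : m + (2 ^ n - m) = 2 ^ n := by omega
    have h2 : n + (2 ^ n - m) = 2 ^ n + (n - m) := by omega
    simp only [h1, h2]
    have h3 : decide (∃ k, 2 ^ n = 2 ^ k) = true := by simp
    have h4 : decide (∃ k, 2 ^ n + (n - m) = 2 ^ k) = false := by
      rw [decide_eq_false_iff_not]
      rintro ⟨k, hk⟩
      have h5 : 2 ^ n < 2 ^ k := by omega
      have h6 : n < k := (Nat.pow_lt_pow_iff_right (by norm_num)).mp h5
      have h7 : 2 ^ (n + 1) ≤ 2 ^ k := Nat.pow_le_pow_right (by norm_num) h6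
      rw [pow_succ] at h7
      omega
    rw [h3, h4]
    decide
  intro m n hmn
  rcases lt_or_gt_of_ne hmn with h | h
  · exact key m n h
  · obtain ⟨i, hi⟩ := key n m h
    exact ⟨i, hi.symm⟩

instance : Nonempty PX := by
  obtain ⟨p, hp⟩ := exists_aper
  exact ⟨⟨p, hp⟩⟩

noncomputable instance : Nontrivial O2 := by
  refine ⟨⟨0, 1, ?_⟩⟩
  intro h
  have h1 : (0 : HH →L[ℂ] HH) = 1 := congrArg Subtype.val h
  obtain ⟨x⟩ := (inferInstance : Nonempty PX)
  have h2 : (0 : HH →L[ℂ] HH) (dd x) = (1 : HH →L[ℂ] HH) (dd x) := by rw [h1]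
  have h3 := norm_dd x
  rw [one_apply_eq_self] at h2
  rw [← h2] at h3
  simp at h3

lemma SS_mem (i : Bool) : SS i ∈ O2 := by
  apply StarSubalgebra.le_topologicalClosure
  apply StarAlgebra.subset_adjoin
  cases i <;> simp

/-- The generators. -/
noncomputable def gg (i : Bool) : O2 := ⟨SS i, SS_mem i⟩

lemma gg_rel (i j : Bool) : star (gg i) * gg j = if i = j then 1 else 0 := by
  apply Subtype.ext
  have := rel i j
  by_cases h : i = j
  · simp only [h, if_true] at this ⊢; exact this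
  · simp only [h, if_false] at this ⊢; exact this

lemma gg_sum : gg false * star (gg false) + gg true * star (gg true) = 1 := by
  apply Subtype.ext
  exact rel_sum

lemma gg_gen : (StarAlgebra.adjoin ℂ ({gg false, gg true} : Set O2)).topologicalClosure = ⊤ := by
  rw [eq_top_iff]
  intro x _
  rw [← SetLike.mem_coe, StarSubalgebra.topologicalClosure_coe, Metric.mem_closure_iff]
  intro ε hε
  have hx : (x : HH →L[ℂ] HH) ∈ closure ((StarAlgebra.adjoin ℂ ({SS false, SS true} : Set (HH →L[ℂ] HH))) : Set (HH →L[ℂ] HH)) := by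
    have h : (x : HH →L[ℂ] HH) ∈
      (StarAlgebra.adjoin ℂ ({SS false, SS true} : Set (HH →L[ℂ] HH))).topologicalClosure := x.2
    rw [← SetLike.mem_coe, StarSubalgebra.topologicalClosure_coe] at h
    exact h
  obtain ⟨y, hy, hd⟩ := Metric.mem_closure_iff.mp hx ε hε
  have hmap : (StarAlgebra.adjoin ℂ ({gg false, gg true} : Set O2)).map O2.subtype =
      StarAlgebra.adjoin ℂ ({SS false, SS true} : Set (HH →L[ℂ] HH)) := by
    rw [StarAlgHom.map_adjoin]
    congr 1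
    rw [Set.image_pair]
    rfl
  rw [SetLike.mem_coe, ← hmap] at hy
  obtain ⟨y', hy', rfl⟩ := hy
  exact ⟨y', hy', hd⟩

lemma W_coe (u : List Bool) : ((W gg u : O2) : HH →L[ℂ] HH) = W SS u := by
  induction u with
  | nil => rfl
  | cons i u ih =>
    rw [W_cons, W_cons, ← ih]
    rfl

/-- Lower bound. For `T ≠ 0` there is `b` such that every automorphic image of `T b` is bounded
below on all basis vectors. -/
theorem lower (T : O2) (hT : T ≠ 0) :
    ∃ (b : O2) (c : ℝ), 0 < c ∧ ∀ (α : O2 ≃⋆ₐ[ℂ] O2) (p : PX),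
      c ≤ ‖((α (T * b) : O2) : HH →L[ℂ] HH) (dd p)‖ ^ 2 := by
  obtain ⟨x, hx⟩ : ∃ x, (T : HH →L[ℂ] HH) (dd x) ≠ 0 := by
    by_contra hcon
    push Not at hcon
    apply hT
    apply Subtype.ext
    apply ext_dd
    intro x
    rw [hcon x]
    rfl
  set c0 : ℝ := ‖(T : HH →L[ℂ] HH) (dd x)‖ ^ 2 with hc0
  have hc0pos : 0 < c0 := by positivity
  have hmem : ((star T * T : O2) : HH →L[ℂ] HH) ∈
      (StarAlgebra.adjoin ℂ ({SS false, SS true} : Set (HH →L[ℂ] HH))).topologicalClosure :=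
    (star T * T : O2).2
  obtain ⟨k, hk⟩ := compress_limit x hmem (c0 / 2) (by linarith)
  have hin : (inner ℂ (dd x) (((star T * T : O2) : HH →L[ℂ] HH) (dd x)) : ℂ) = (c0 : ℂ) := by
    have h1 : ((star T * T : O2) : HH →L[ℂ] HH) = star (T : HH →L[ℂ] HH) * (T : HH →L[ℂ] HH) := rfl
    rw [h1, mul_apply_eq_comp, ContinuousLinearMap.star_eq_adjoint,
      ContinuousLinearMap.adjoint_inner_right, inner_self_eq_norm_sq_to_K, hc0]
    push_cast
    rfl
  rw [hin] at hk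
  set b : O2 := W gg (pre x.1 k) with hb
  set R : O2 := star (T * b) * (T * b) - (c0 : ℂ) • (1 : O2) with hR
  have hRn : ‖R‖ ≤ c0 / 2 := by
    have h1 : ((R : O2) : HH →L[ℂ] HH) = star (W SS (pre x.1 k)) * ((star T * T : O2) : HH →L[ℂ] HH) *
      W SS (pre x.1 k) - (c0 : ℂ) • (1 : HH →L[ℂ] HH) := by
      rw [hR, star_mul, ← W_coe]
      have : star b * star T * (T * b) = star b * (star T * T) * b := by simp only [mul_assoc]
      rw [this]
      rfl
    have h2 : ‖R‖ = ‖((R : O2) : HH →L[ℂ] HH)‖ := rfl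
    rw [h2, h1]
    exact hk
  refine ⟨b, c0 / 2, by linarith, fun α p => ?_⟩
  set y : O2 := α (T * b) with hy
  have h3 : star y * y = α R + (c0 : ℂ) • (1 : O2) := by
    have hm : α (star (T * b) * (T * b)) = star y * y := by
      rw [map_mul α (star (T * b)) (T * b), map_star]
    rw [hR, map_sub, map_smul, map_one, hm]
    abel
  have h4 : ‖(y : HH →L[ℂ] HH) (dd p)‖ ^ 2 =
      RCLike.re (inner ℂ (dd p) (((star y * y : O2) : HH →L[ℂ] HH) (dd p)) : ℂ) := by
    have h1 : ((star y * y : O2) : HH →L[ℂ] HH) = star (y : HH →L[ℂ] HH) * (y : HH →L[ℂ] HH) := rfl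
    rw [h1, mul_apply_eq_comp, ContinuousLinearMap.star_eq_adjoint,
      ContinuousLinearMap.adjoint_inner_right, inner_self_eq_norm_sq]
  rw [h4, h3]
  have h5 : ((α R + (c0 : ℂ) • (1 : O2) : O2) : HH →L[ℂ] HH) =
      ((α R : O2) : HH →L[ℂ] HH) + (c0 : ℂ) • (1 : HH →L[ℂ] HH) := rfl
  rw [h5, add_apply, inner_add_right, map_add]
  have h6 : RCLike.re (inner ℂ (dd p) (((c0 : ℂ) • (1 : HH →L[ℂ] HH)) (dd p)) : ℂ) = c0 := by
    have h61 : (((c0 : ℂ) • (1 : HH →L[ℂ] HH)) (dd p)) = (c0 : ℂ) • dd p := rfl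
    rw [h61, inner_smul_right, inner_self_eq_norm_sq_to_K, norm_dd]
    simp
  rw [h6]
  have h7 : |RCLike.re (inner ℂ (dd p) (((α R : O2) : HH →L[ℂ] HH) (dd p)) : ℂ)| ≤ c0 / 2 := by
    calc _ ≤ ‖(inner ℂ (dd p) (((α R : O2) : HH →L[ℂ] HH) (dd p)) : ℂ)‖ := RCLike.abs_re_le_norm _
      _ ≤ ‖((α R : O2) : HH →L[ℂ] HH)‖ := norm_inner_dd_le p _
      _ = ‖α R‖ := rfl
      _ ≤ ‖R‖ := NonUnitalStarAlgHom.norm_apply_le α R
      _ ≤ c0 / 2 := hRn
  have := (abs_le.mp h7).1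
  linarith

set_option maxHeartbeats 4000000 in
/-- The main contradiction. -/
theorem no_faithful (φ : Multiplicative GA → (O2 ≃⋆ₐ[ℂ] O2))
    (hmul : ∀ g h : Multiplicative GA, ∀ a : O2, φ (g * h) a = φ g (φ h a))
    (hcont : Continuous (fun g : Multiplicative GA => (⇑(φ g) : O2 → O2)))
    (hinj : Function.Injective (fun g : Multiplicative GA => (⇑(φ g) : O2 → O2))) : False := by
  classical
  -- additive version
  set α : GA → (O2 ≃⋆ₐ[ℂ] O2) := fun v => φ (Multiplicative.ofAdd v) with hα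
  have hadd : ∀ v w : GA, ∀ a : O2, α (v + w) a = α v (α w a) := by
    intro v w a
    exact hmul _ _ _
  have hzero : ∀ a : O2, α 0 a = a := by
    intro a
    have h := hadd 0 0 a
    rw [add_zero] at h
    exact ((α 0).injective h).symm
  have hc : ∀ a : O2, Continuous (fun v : GA => α v a) := by
    intro a
    exact (continuous_apply a).comp (hcont.comp continuous_ofAdd)
  set z : GA := zz 0 with hz
  have hz0 : z ≠ 0 := zz_ne_zero 0
  obtain ⟨a, ha⟩ : ∃ a, α z a ≠ a := by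
    by_contra hcon
    push Not at hcon
    apply hz0
    have : Multiplicative.ofAdd z = Multiplicative.ofAdd 0 := by
      apply hinj
      funext a
      exact (hcon a).trans (hzero a).symm
    exact Multiplicative.ofAdd.injective this
  obtain ⟨b, c, hcpos, hlow⟩ := lower (α z a - a) (sub_ne_zero.mpr ha)
  obtain ⟨p⟩ := (inferInstance : Nonempty PX)
  -- choose ε
  set M : ℝ := ‖a‖ ^ 2 + 1 with hM
  have hMpos : 0 < M := by positivity
  obtain ⟨ε, hε, hε2⟩ : ∃ ε : ℝ, 0 < ε ∧ 8 * M * ε ^ 2 < c := by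
    refine ⟨Real.sqrt (c / (16 * M)), Real.sqrt_pos.mpr (by positivity), ?_⟩
    rw [Real.sq_sqrt (by positivity)]
    have : 8 * M * (c / (16 * M)) = c / 2 := by field_simp; norm_num
    rw [this]; linarith
  -- small neighbourhood
  have hnb : ∀ y : O2, ∃ δ > 0, ∀ v : GA, ‖v‖ < δ → ‖α v y - y‖ ≤ ε := by
    intro y
    have h1 := Metric.continuous_iff.mp (hc y) 0 ε hε
    obtain ⟨δ, hδ, h2⟩ := h1
    refine ⟨δ, hδ, fun v hv => ?_⟩
    have h3 := h2 v (by simpa [dist_eq_norm] using hv)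
    rw [dist_eq_norm, hzero] at h3
    exact h3.le
  obtain ⟨δ₁, hδ₁, h₁⟩ := hnb b
  obtain ⟨δ₂, hδ₂, h₂⟩ := hnb (a * b)
  obtain ⟨n, hn⟩ := exists_nat_one_div_lt (lt_min hδ₁ hδ₂)
  -- the finite group action
  set ι : (Om n → ZMod 2) → GA := fun g => ((emb n g : V0) : GA) with hι
  have hιadd : ∀ g h, ι (g + h) = ι g + ι h := by
    intro g h
    simp only [hι, map_add, UniformSpace.Completion.coe_add]
  have hι1 : ι 1 = z := zz_eq n 0
  have hιsmall : ∀ t, ∀ h ∈ supp (AA n t), ‖ι h‖ ≤ 1 / (n + 1) := by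
    intro t h hh
    simp only [hι, UniformSpace.Completion.norm_coe]
    refine norm_emb_le n t h ?_
    intro σ hσ
    simp only [supp, Finset.mem_filter, Finset.mem_univ, true_and] at hh
    exact hh σ (by simp [AA, hσ])
  -- the functions
  have hFb : ∀ y : O2, (∀ v : GA, ‖v‖ < min δ₁ δ₂ → ‖α v y - y‖ ≤ ε) →
      ∑ g : Om n → ZMod 2, ‖((α (ι (g + 1)) y : O2) : HH →L[ℂ] HH) (dd p) -
        ((α (ι g) y : O2) : HH →L[ℂ] HH) (dd p)‖ ^ 2 ≤ 4 * ε ^ 2 * Fintype.card (Om n → ZMod 2) := by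
    intro y hy
    refine key_ineq (AA n) (AA_half n) (fun g => ((α (ι g) y : O2) : HH →L[ℂ] HH) (dd p)) ε hε.le ?_
    intro t h hh g
    have e1 : α (ι (g + h)) y = α (ι g) (α (ι h) y) := by rw [hιadd, hadd]
    calc ‖((α (ι (g + h)) y : O2) : HH →L[ℂ] HH) (dd p) - ((α (ι g) y : O2) : HH →L[ℂ] HH) (dd p)‖
        = ‖((α (ι g) (α (ι h) y - y) : O2) : HH →L[ℂ] HH) (dd p)‖ := by
          rw [e1, map_sub]; rfl
      _ ≤ ‖((α (ι g) (α (ι h) y - y) : O2) : HH →L[ℂ] HH)‖ * ‖dd p‖ :=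
          ContinuousLinearMap.le_opNorm _ _
      _ = ‖α (ι g) (α (ι h) y - y)‖ := by rw [norm_dd, mul_one]; rfl
      _ ≤ ‖α (ι h) y - y‖ := NonUnitalStarAlgHom.norm_apply_le _ _
      _ ≤ ε := hy _ (lt_of_le_of_lt (hιsmall t h hh) hn)
  have hb := hFb b (fun v hv => h₁ v (lt_of_lt_of_le hv (min_le_left _ _)))
  have hab := hFb (a * b) (fun v hv => h₂ v (lt_of_lt_of_le hv (min_le_right _ _)))
  -- comparison
  have hcomp : ∀ g : Om n → ZMod 2, c ≤
      2 * ‖a‖ ^ 2 * ‖((α (ι (g + 1)) b : O2) : HH →L[ℂ] HH) (dd p) -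
        ((α (ι g) b : O2) : HH →L[ℂ] HH) (dd p)‖ ^ 2 +
      2 * ‖((α (ι (g + 1)) (a * b) : O2) : HH →L[ℂ] HH) (dd p) -
        ((α (ι g) (a * b) : O2) : HH →L[ℂ] HH) (dd p)‖ ^ 2 := by
    intro g
    have hl := hlow (α (ι g)) p
    have e2 : ∀ y, α (ι (g + 1)) y = α (ι g) (α z y) := by
      intro y
      rw [hιadd, hadd, hι1]
    have e3 : α (ι g) ((α z a - a) * b) =
        α (ι g) (α z a) * (α (ι g) b - α (ι (g + 1)) b) + (α (ι (g + 1)) (a * b) - α (ι g) (a * b)) := by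
      rw [e2, e2, map_mul (α z) a b, map_mul, map_mul, map_sub]
      simp only [map_mul, sub_mul, mul_sub]
      abel
    set u : HH := ((α (ι (g + 1)) b : O2) : HH →L[ℂ] HH) (dd p) -
        ((α (ι g) b : O2) : HH →L[ℂ] HH) (dd p) with hu
    set w : HH := ((α (ι (g + 1)) (a * b) : O2) : HH →L[ℂ] HH) (dd p) -
        ((α (ι g) (a * b) : O2) : HH →L[ℂ] HH) (dd p) with hw
    have e4 : ((α (ι g) ((α z a - a) * b) : O2) : HH →L[ℂ] HH) (dd p) =
        ((α (ι g) (α z a) : O2) : HH →L[ℂ] HH) (-u) + w := by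
      rw [e3, hu, hw, neg_sub]
      rfl
    have e5 : ‖((α (ι g) ((α z a - a) * b) : O2) : HH →L[ℂ] HH) (dd p)‖ ≤ ‖a‖ * ‖u‖ + ‖w‖ := by
      rw [e4]
      refine (norm_add_le _ _).trans ?_
      gcongr
      refine (ContinuousLinearMap.le_opNorm _ _).trans ?_
      rw [norm_neg]
      gcongr
      calc ‖((α (ι g) (α z a) : O2) : HH →L[ℂ] HH)‖ = ‖α (ι g) (α z a)‖ := rfl
        _ ≤ ‖α z a‖ := NonUnitalStarAlgHom.norm_apply_le _ _
        _ ≤ ‖a‖ := NonUnitalStarAlgHom.norm_apply_le _ _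
    have e6 := norm_nonneg (((α (ι g) ((α z a - a) * b) : O2) : HH →L[ℂ] HH) (dd p))
    have e7 : ‖((α (ι g) ((α z a - a) * b) : O2) : HH →L[ℂ] HH) (dd p)‖ ^ 2 ≤ (‖a‖ * ‖u‖ + ‖w‖) ^ 2 :=
      pow_le_pow_left₀ e6 e5 2
    nlinarith [sq_nonneg (‖a‖ * ‖u‖ - ‖w‖)]
  have hsum := Finset.sum_le_sum (s := (Finset.univ : Finset (Om n → ZMod 2))) (fun g _ => hcomp g)
  rw [Finset.sum_const, nsmul_eq_mul, Finset.card_univ, Finset.sum_add_distrib, ← Finset.mul_sum,
    ← Finset.mul_sum] at hsum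
  have hN : (0 : ℝ) < Fintype.card (Om n → ZMod 2) := by exact_mod_cast Fintype.card_pos
  have hfin : (Fintype.card (Om n → ZMod 2) : ℝ) * c ≤
      (Fintype.card (Om n → ZMod 2) : ℝ) * (8 * M * ε ^ 2) := by
    have ha2 : 0 ≤ 2 * ‖a‖ ^ 2 := by positivity
    nlinarith [mul_le_mul_of_nonneg_left hb ha2]
  have := le_of_mul_le_mul_left hfin hN
  linarith

end Pool.Agent.MP54a15d
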